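import Pool.Agent.Helper19.RFn.GoalsM
import Pool.Agent.Helper69.RFn.C3

/-!
# Project RFn (MP_c98eff_gt), packet M-FRZ: the gradient of a fixed function with respect to the metrics of the flow
-/

set_option autoImplicit false

namespace Pool.Agent.Helper54.RFn

open Finset Pool.Agent.Helper47.RFn Pool.Agent.Helper73.RFn Pool.Agent.Helper19.RFn

variable {n : ℕ}

/-- the radial field is orthogonal to gradients -/
theorem nfc_Fdc {A θ : MF n} {v : EE n → ℝ} {x : EE n} (hinv : A x * θ x = 1)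
    (hnA : ∀ a, ∑ i, A x a i * x i = ∑ i, θ x i a * x i) (hv : Sm v) (hx : x ≠ 0) :
    ∑ a, nfc A a x * Fdc A a v x = 0 := by
  have hinv' : θ x * A x = 1 := mul_eq_one_comm.1 hinv
  have h1 : ∀ a, nfc A a x = ∑ j, θ x j a * nn j x := by
    intro a
    have h2 := hnA a
    have h3 : ∀ w : Fin (n + 1) → ℝ, ∑ i, w i * nn i x = (∑ i, w i * x i) / ‖x‖ := by
      intro w
      rw [Finset.sum_div]
      exact Finset.sum_congr rfl fun i _ => by rw [nn]; ring
    unfold nfc
    rw [h3 (fun i => A x a i), h3 (fun j => θ x j a), h2]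
  have h4 : ∀ i j, ∑ a, θ x j a * A x a i = if j = i then 1 else 0 := by
    intro i j
    have h5 := congrFun (congrFun hinv' j) i
    rw [Matrix.mul_apply, Matrix.one_apply] at h5
    exact h5
  calc ∑ a, nfc A a x * Fdc A a v x
      = ∑ a, ∑ i, ∑ j, (θ x j a * A x a i) * (nn j x * ed i v x) := by
        refine Finset.sum_congr rfl fun a _ => ?_
        rw [h1 a, Fdc, Finset.mul_sum]
        refine Finset.sum_congr rfl fun i _ => ?_
        rw [Finset.sum_mul]
        exact Finset.sum_congr rfl fun j _ => by ring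
    _ = ∑ i, ∑ j, (∑ a, θ x j a * A x a i) * (nn j x * ed i v x) := by
        rw [Finset.sum_comm]
        refine Finset.sum_congr rfl fun i _ => ?_
        rw [Finset.sum_comm]
        exact Finset.sum_congr rfl fun j _ => by rw [Finset.sum_mul]
    _ = ∑ i, nn i x * ed i v x := by
        refine Finset.sum_congr rfl fun i _ => ?_
        simp [h4]
    _ = 0 := by
        simp_rw [c3_nn_ed hx]
        exact c3_euler hv hx

/-- time derivative of the frame components of a fixed function -/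
theorem Fdc_deriv {I : Set ℝ} {A θ : ℝ → MF n} (hF : FFlow I A θ) (v : EE n → ℝ) {x : EE n} (hx : x ≠ 0)
    (a : Fin (n + 1)) {t : ℝ} (ht : t ∈ I) :
    HasDerivWithinAt (fun s => Fdc (A s) a v x) (∑ b, Rcf (A t) (θ t) a b x * Fdc (A t) b v x) I t := by
  have h1 : ∀ i, HasDerivWithinAt (fun s => A s x a i * ed i v x)
      ((∑ b, Rcf (A t) (θ t) a b x * A t x b i) * ed i v x) I t := fun i =>
    ((hF.flA a i).der [] x hx t ht).mul_const _
  have h2 := HasDerivWithinAt.fun_sum (fun i (_ : i ∈ Finset.univ) => h1 i)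
  refine h2.congr_deriv ?_
  unfold Fdc
  simp_rw [Finset.sum_mul, Finset.mul_sum]
  rw [Finset.sum_comm]
  exact Finset.sum_congr rfl fun b _ => Finset.sum_congr rfl fun i _ => by ring

/-- time derivative of the square of the gradient -/
theorem ggf_deriv {I : Set ℝ} {A θ : ℝ → MF n} (hF : FFlow I A θ) (v : EE n → ℝ) {x : EE n} (hx : x ≠ 0)
    {t : ℝ} (ht : t ∈ I) :
    HasDerivWithinAt (fun s => ggf (A s) v v x)
      (2 * ∑ a, ∑ b, Rcf (A t) (θ t) a b x * Fdc (A t) a v x * Fdc (A t) b v x) I t := by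
  have h1 := fun a => (Fdc_deriv hF v hx a ht).mul (Fdc_deriv hF v hx a ht)
  have h2 := HasDerivWithinAt.fun_sum (fun a (_ : a ∈ Finset.univ) => h1 a)
  refine h2.congr_deriv ?_
  rw [Finset.mul_sum]
  refine Finset.sum_congr rfl fun a _ => ?_
  rw [Finset.sum_mul, Finset.mul_sum, ← Finset.sum_add_distrib, Finset.mul_sum]
  exact Finset.sum_congr rfl fun b _ => by ring

theorem frz : FrzStmt := by
  intro n T t1 c A θ v x hF hv hx h0 hT hR
  have hmem : ∀ t, 0 ≤ t → t ≤ t1 → t ∈ Set.Ico 0 T := fun t ht ht1 => ⟨ht, lt_of_le_of_lt ht1 hT⟩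
  have hsub : Set.Icc 0 t1 ⊆ Set.Ico 0 T := fun t ht => hmem t ht.1 ht.2
  have hq : ∀ t ∈ Set.Icc 0 t1, HasDerivWithinAt (fun s => Real.exp (-(2 * c * s)) * ggf (A s) v v x)
      (Real.exp (-(2 * c * t)) * (-(2 * c)) * ggf (A t) v v x + Real.exp (-(2 * c * t)) *
        (2 * ∑ a, ∑ b, Rcf (A t) (θ t) a b x * Fdc (A t) a v x * Fdc (A t) b v x)) (Set.Icc 0 t1) t := by
    intro t ht
    have h1 : HasDerivAt (fun s : ℝ => Real.exp (-(2 * c * s))) (Real.exp (-(2 * c * t)) * (-(2 * c))) t := by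
      have h2 : HasDerivAt (fun s : ℝ => -(2 * c * s)) (-(2 * c)) t := by
        have h3 := ((hasDerivAt_id t).const_mul (2 * c)).fun_neg
        rw [mul_one] at h3
        exact h3
      exact h2.exp
    exact h1.hasDerivWithinAt.mul ((ggf_deriv hF v hx (hsub ht)).mono hsub)
  have hmono : MonotoneOn (fun s => Real.exp (-(2 * c * s)) * ggf (A s) v v x) (Set.Icc 0 t1) := by
    refine monotoneOn_of_hasDerivWithinAt_nonneg (convex_Icc 0 t1)
      (fun t ht => (hq t ht).continuousWithinAt)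
      (fun t ht => (hq t (interior_subset ht)).mono interior_subset) ?_
    intro t ht
    have ht' : t ∈ Set.Icc 0 t1 := interior_subset ht
    have h3 := hR t ht'.1 ht'.2 (fun a => Fdc (A t) a v x)
      (nfc_Fdc (hF.inv t (hsub ht') x) (fun a => hF.nA t (hsub ht') x a) hv hx)
    have h4 : ggf (A t) v v x = ∑ a, Fdc (A t) a v x ^ 2 := by
      unfold ggf
      exact Finset.sum_congr rfl fun a _ => by ring
    rw [← h4] at h3
    have h5 : 0 < Real.exp (-(2 * c * t)) := Real.exp_pos _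
    have h6 : Real.exp (-(2 * c * t)) * (-(2 * c)) * ggf (A t) v v x + Real.exp (-(2 * c * t)) *
        (2 * ∑ a, ∑ b, Rcf (A t) (θ t) a b x * Fdc (A t) a v x * Fdc (A t) b v x)
        = Real.exp (-(2 * c * t)) * (2 * (∑ a, ∑ b, Rcf (A t) (θ t) a b x * Fdc (A t) a v x * Fdc (A t) b v x
          - c * ggf (A t) v v x)) := by ring
    rw [h6]
    exact mul_nonneg h5.le (mul_nonneg (by norm_num) (sub_nonneg.2 h3))
  have h7 := hmono (Set.left_mem_Icc.2 h0) (Set.right_mem_Icc.2 h0) h0
  simpa using h7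

end Pool.Agent.Helper54.RFn
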