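import Pool.Agent.Helper73.RFn.GoalsG

/-!
Packet MAX of project RFn (MP_c98eff_gt): the maximal flow in dimension `n` (after `Helper9/RF/MAX`).
-/

set_option autoImplicit false

open Finset Pool.Agent.Helper47.RFn

namespace Pool.Agent.Helper54.RFn.MAX

open Pool.Agent.Helper73.RFn Topology

variable {n : ℕ}

/-! ### Everything only sees the values off `0` -/

theorem ed_congr {f g : EE n → ℝ} (h : ∀ x, x ≠ 0 → f x = g x) (i : Fin (n + 1)) (x : EE n)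
    (hx : x ≠ 0) : ed i f x = ed i g x := by
  unfold ed pd
  have : f =ᶠ[𝓝 x] g := by
    filter_upwards [isOpen_compl_singleton.mem_nhds hx] with y hy
    exact h y hy
  rw [this.fderiv_eq]

theorem Ew_congr {f g : EE n → ℝ} (h : ∀ x, x ≠ 0 → f x = g x) (w : List (Fin (n + 1))) :
    ∀ x, x ≠ 0 → Ew w f x = Ew w g x := by
  induction w with
  | nil => exact h
  | cons i w ih => exact fun x hx => ed_congr ih i x hx

theorem Sm_congr {f g : EE n → ℝ} (hg : Sm g) (h : ∀ x, x ≠ 0 → f x = g x) : Sm f := by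
  constructor
  · exact hg.cd.congr (fun x hx => h x hx)
  · intro r x hr
    by_cases hx : x = 0
    · rw [hx, smul_zero]
    · rw [h x hx, h (r • x) (smul_ne_zero hr.ne' hx)]
      exact hg.hom r x hr

theorem Fdc_congr {A A' : MF n} (hA : ∀ x, x ≠ 0 → A x = A' x) {f g : EE n → ℝ}
    (h : ∀ x, x ≠ 0 → f x = g x) (a : Fin (n + 1)) (x : EE n) (hx : x ≠ 0) :
    Fdc A a f x = Fdc A' a g x := by
  unfold Fdc
  rw [hA x hx]
  exact Finset.sum_congr rfl fun i _ => by rw [ed_congr h i x hx]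

theorem nfc_congr {A A' : MF n} (hA : ∀ x, x ≠ 0 → A x = A' x) (a : Fin (n + 1)) (x : EE n)
    (hx : x ≠ 0) : nfc A a x = nfc A' a x := by
  unfold nfc
  rw [hA x hx]

theorem Cc_congr {A A' θ θ' : MF n} (hA : ∀ x, x ≠ 0 → A x = A' x)
    (ht : ∀ x, x ≠ 0 → θ x = θ' x) (a b c : Fin (n + 1)) (x : EE n) (hx : x ≠ 0) :
    Cc A θ a b c x = Cc A' θ' a b c x := by
  unfold Cc
  have e : ∀ a b j, Fdc A a (fun y => A y b j) x = Fdc A' a (fun y => A' y b j) x :=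
    fun a b j => Fdc_congr hA (fun y hy => by rw [hA y hy]) a x hx
  simp only [e, ht x hx, nfc_congr hA _ x hx]

theorem Gamc_congr {A A' θ θ' : MF n} (hA : ∀ x, x ≠ 0 → A x = A' x)
    (ht : ∀ x, x ≠ 0 → θ x = θ' x) (a b c : Fin (n + 1)) (x : EE n) (hx : x ≠ 0) :
    Gamc A θ a b c x = Gamc A' θ' a b c x := by
  unfold Gamc
  rw [Cc_congr hA ht a b c x hx, Cc_congr hA ht b c a x hx, Cc_congr hA ht c a b x hx]

theorem Kf_congr {A A' θ θ' : MF n} (hA : ∀ x, x ≠ 0 → A x = A' x)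
    (ht : ∀ x, x ≠ 0 → θ x = θ' x) (a b c d : Fin (n + 1)) (x : EE n) (hx : x ≠ 0) :
    Kf A θ a b c d x = Kf A' θ' a b c d x := by
  unfold Kf
  have e : ∀ a b c d, Fdc A a (Gamc A θ b c d) x = Fdc A' a (Gamc A' θ' b c d) x :=
    fun a b c d => Fdc_congr hA (fun y hy => Gamc_congr hA ht b c d y hy) a x hx
  have e2 : ∀ a b c, Gamc A θ a b c x = Gamc A' θ' a b c x := fun a b c =>
    Gamc_congr hA ht a b c x hx
  have e3 : ∀ a b c, Cc A θ a b c x = Cc A' θ' a b c x := fun a b c => Cc_congr hA ht a b c x hx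
  simp only [e, e2, e3]

theorem Rcf_congr {A A' θ θ' : MF n} (hA : ∀ x, x ≠ 0 → A x = A' x)
    (ht : ∀ x, x ≠ 0 → θ x = θ' x) (a b : Fin (n + 1)) (x : EE n) (hx : x ≠ 0) :
    Rcf A θ a b x = Rcf A' θ' a b x := by
  unfold Rcf Rf
  exact Finset.sum_congr rfl fun c _ => by rw [Kf_congr hA ht a c b c x hx]

/-! ### Restriction -/

theorem SmFam_mono {I J : Set ℝ} (h : J ⊆ I) {f : ℝ → EE n → ℝ} (hf : SmFam I f) : SmFam J f :=
  ⟨fun t ht => hf.sm t (h ht), fun w => (hf.cont w).mono (Set.prod_mono h subset_rfl)⟩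

theorem SmFam1_mono {I J : Set ℝ} (h : J ⊆ I) {f f' : ℝ → EE n → ℝ} (hf : SmFam1 I f f') :
    SmFam1 J f f' :=
  ⟨SmFam_mono h hf.fam, SmFam_mono h hf.fam', fun w x hx t ht =>
    (hf.der w x hx t (h ht)).mono h⟩

theorem FFlow_mono {I J : Set ℝ} (h : J ⊆ I) {A θ : ℝ → MF n} (hf : FFlow I A θ) : FFlow J A θ :=
  ⟨fun t ht x => hf.inv t (h ht) x, fun t ht x a => hf.nA t (h ht) x a,
    fun a i => SmFam1_mono h (hf.flA a i), fun i a => SmFam1_mono h (hf.flt i a)⟩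

/-! ### Increasing unions -/

theorem inter_eq {T T' : ℝ} (h : T' ≤ T) : Set.Ico 0 T ∩ Set.Iio T' = Set.Ico 0 T' := by
  ext t
  simp only [Set.mem_inter_iff, Set.mem_Ico, Set.mem_Iio]
  constructor
  · rintro ⟨⟨h1, _⟩, h3⟩; exact ⟨h1, h3⟩
  · rintro ⟨h1, h2⟩; exact ⟨⟨h1, by linarith⟩, h2⟩

theorem SmFam_union {T : ℝ} {f : ℝ → EE n → ℝ}
    (h : ∀ t0, 0 ≤ t0 → t0 < T → ∃ T' g, t0 < T' ∧ T' ≤ T ∧ SmFam (Set.Ico 0 T') g ∧
      ∀ t, 0 ≤ t → t < T' → ∀ x, x ≠ 0 → f t x = g t x) : SmFam (Set.Ico 0 T) f := by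
  constructor
  · intro t ht
    obtain ⟨T', g, h1, _, h3, h4⟩ := h t ht.1 ht.2
    exact Sm_congr (h3.sm t ⟨ht.1, h1⟩) (h4 t ht.1 h1)
  · rintro w ⟨t, x⟩ ⟨ht, hx⟩
    have ht' : t ∈ Set.Ico 0 T := ht
    have hx' : x ≠ 0 := hx
    obtain ⟨T', g, h1, h2, h3, h4⟩ := h t ht'.1 ht'.2
    have hU : (Set.Iio T' ×ˢ (Set.univ : Set (EE n))) ∈ 𝓝 ((t, x) : ℝ × EE n) :=
      prod_mem_nhds (Iio_mem_nhds h1) Filter.univ_mem
    rw [← continuousWithinAt_inter hU]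
    have hs : (Set.Ico 0 T ×ˢ ({0}ᶜ : Set (EE n))) ∩ (Set.Iio T' ×ˢ (Set.univ : Set (EE n)))
        = Set.Ico 0 T' ×ˢ ({0}ᶜ : Set (EE n)) := by
      rw [Set.prod_inter_prod, inter_eq h2, Set.inter_univ]
    rw [hs]
    refine (h3.cont w (t, x) ⟨⟨ht'.1, h1⟩, hx⟩).congr ?_ ?_
    · rintro ⟨t', x'⟩ ⟨k1, k2⟩
      have k1' : t' ∈ Set.Ico 0 T' := k1
      exact Ew_congr (h4 t' k1'.1 k1'.2) w x' k2
    · exact Ew_congr (h4 t ht'.1 h1) w x hx'

theorem SmFam1_union {T : ℝ} {f f' : ℝ → EE n → ℝ}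
    (h : ∀ t0, 0 ≤ t0 → t0 < T → ∃ T' g g', t0 < T' ∧ T' ≤ T ∧ SmFam1 (Set.Ico 0 T') g g' ∧
      ∀ t, 0 ≤ t → t < T' → ∀ x, x ≠ 0 → f t x = g t x ∧ f' t x = g' t x) :
    SmFam1 (Set.Ico 0 T) f f' := by
  constructor
  · apply SmFam_union
    intro t0 a b
    obtain ⟨T', g, g', h1, h2, h3, h4⟩ := h t0 a b
    exact ⟨T', g, h1, h2, h3.fam, fun t c d x hx => (h4 t c d x hx).1⟩
  · apply SmFam_union
    intro t0 a b
    obtain ⟨T', g, g', h1, h2, h3, h4⟩ := h t0 a b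
    exact ⟨T', g', h1, h2, h3.fam', fun t c d x hx => (h4 t c d x hx).2⟩
  · intro w x hx t ht
    obtain ⟨T', g, g', h1, h2, h3, h4⟩ := h t ht.1 ht.2
    rw [← hasDerivWithinAt_inter (Iio_mem_nhds h1), inter_eq h2,
      Ew_congr (fun y hy => (h4 t ht.1 h1 y hy).2) w x hx]
    refine (h3.der w x hx t ⟨ht.1, h1⟩).congr ?_ ?_
    · intro t' ht'
      exact Ew_congr (fun y hy => (h4 t' ht'.1 ht'.2 y hy).1) w x hx
    · exact Ew_congr (fun y hy => (h4 t ht.1 h1 y hy).1) w x hx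

theorem FFlow_union {T : ℝ} {A θ : ℝ → MF n} (hinv : ∀ t, 0 ≤ t → t < T → ∀ x, A t x * θ t x = 1)
    (hnA : ∀ t, 0 ≤ t → t < T → ∀ x a, ∑ i, A t x a i * x i = ∑ i, θ t x i a * x i)
    (h : ∀ t0, 0 ≤ t0 → t0 < T → ∃ T' A' θ', t0 < T' ∧ T' ≤ T ∧ FFlow (Set.Ico 0 T') A' θ' ∧
      ∀ t, 0 ≤ t → t < T' → ∀ x, x ≠ 0 → A t x = A' t x ∧ θ t x = θ' t x) :
    FFlow (Set.Ico 0 T) A θ := by
  constructor
  · exact fun t ht x => hinv t ht.1 ht.2 x
  · exact fun t ht x a => hnA t ht.1 ht.2 x a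
  · intro a i
    apply SmFam1_union
    intro t0 c d
    obtain ⟨T', A', θ', h1, h2, h3, h4⟩ := h t0 c d
    refine ⟨T', _, _, h1, h2, h3.flA a i, fun t p q x hx => ⟨?_, ?_⟩⟩
    · rw [(h4 t p q x hx).1]
    · refine Finset.sum_congr rfl (fun b _ => ?_)
      rw [Rcf_congr (fun y hy => (h4 t p q y hy).1) (fun y hy => (h4 t p q y hy).2) a b x hx,
        (h4 t p q x hx).1]
  · intro i a
    apply SmFam1_union
    intro t0 c d
    obtain ⟨T', A', θ', h1, h2, h3, h4⟩ := h t0 c d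
    refine ⟨T', _, _, h1, h2, h3.flt i a, fun t p q x hx => ⟨?_, ?_⟩⟩
    · rw [(h4 t p q x hx).2]
    · congr 1
      refine Finset.sum_congr rfl (fun b _ => ?_)
      rw [Rcf_congr (fun y hy => (h4 t p q y hy).1) (fun y hy => (h4 t p q y hy).2) b a x hx,
        (h4 t p q x hx).2]

/-- Flows with given initial values. -/
structure Fl (A0 θ0 : MF n) where
  T : ℝ
  A : ℝ → MF n
  θ : ℝ → MF n
  pos : 0 < T
  flow : FFlow (Set.Ico 0 T) A θ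
  init : ∀ x, x ≠ 0 → A 0 x = A0 x ∧ θ 0 x = θ0 x

/-- Extension of flows. -/
def Le {A0 θ0 : MF n} (p q : Fl A0 θ0) : Prop :=
  p.T ≤ q.T ∧ ∀ t, 0 ≤ t → t < p.T → ∀ x, x ≠ 0 → q.A t x = p.A t x ∧ q.θ t x = p.θ t x

theorem Le_trans {A0 θ0 : MF n} {p q r : Fl A0 θ0} (h1 : Le p q) (h2 : Le q r) : Le p r := by
  refine ⟨h1.1.trans h2.1, fun t a b x hx => ?_⟩
  have k1 := h1.2 t a b x hx
  have k2 := h2.2 t a (lt_of_lt_of_le b h1.1) x hx
  exact ⟨k2.1.trans k1.1, k2.2.trans k1.2⟩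

open Classical in
theorem chain_ub {A0 θ0 : MF n} {Tb : ℝ} (hTb : ∀ p : Fl A0 θ0, p.T ≤ Tb)
    (hne : Nonempty (Fl A0 θ0)) (c : Set (Fl A0 θ0)) (hc : IsChain Le c) :
    ∃ ub, ∀ a ∈ c, Le a ub := by
  rcases Set.eq_empty_or_nonempty c with h0 | ⟨p0, hp0⟩
  · obtain ⟨p⟩ := hne
    exact ⟨p, fun a ha => by rw [h0] at ha; exact absurd ha (Set.notMem_empty a)⟩
  have hbdd : BddAbove (Fl.T '' c) := ⟨Tb, by rintro _ ⟨p, _, rfl⟩; exact hTb p⟩
  set Ts := sSup (Fl.T '' c) with hTs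
  have hle : ∀ p ∈ c, p.T ≤ Ts := fun p hp => le_csSup hbdd ⟨p, hp, rfl⟩
  have hex : ∀ t, t < Ts → ∃ p, p ∈ c ∧ t < p.T := by
    intro t ht
    obtain ⟨_, ⟨p, hp, rfl⟩, h⟩ := exists_lt_of_lt_csSup
      (⟨p0.T, p0, hp0, rfl⟩ : (Fl.T '' c).Nonempty) ht
    exact ⟨p, hp, h⟩
  let As : ℝ → MF n := fun t => if h : ∃ p, p ∈ c ∧ t < p.T then h.choose.A t else fun _ => 1
  let ts : ℝ → MF n := fun t => if h : ∃ p, p ∈ c ∧ t < p.T then h.choose.θ t else fun _ => 1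
  -- two members of the chain agree
  have hag : ∀ p ∈ c, ∀ q ∈ c, ∀ t, 0 ≤ t → t < p.T → t < q.T → ∀ x, x ≠ 0 →
      p.A t x = q.A t x ∧ p.θ t x = q.θ t x := by
    intro p hp q hq t a b1 b2 x hx
    by_cases hpq : p = q
    · subst hpq; exact ⟨rfl, rfl⟩
    · rcases hc hp hq hpq with h | h
      · have := h.2 t a b1 x hx
        exact ⟨this.1.symm, this.2.symm⟩
      · exact h.2 t a b2 x hx
  have hAs : ∀ p ∈ c, ∀ t, 0 ≤ t → t < p.T → ∀ x, x ≠ 0 → As t x = p.A t x ∧ ts t x = p.θ t x := by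
    intro p hp t a b x hx
    have h : ∃ p, p ∈ c ∧ t < p.T := ⟨p, hp, b⟩
    simp only [As, ts, dif_pos h]
    exact hag _ h.choose_spec.1 p hp t a h.choose_spec.2 b x hx
  have hflow : FFlow (Set.Ico 0 Ts) As ts := by
    apply FFlow_union
    · intro t a b x
      have h : ∃ p, p ∈ c ∧ t < p.T := hex t b
      simp only [As, ts, dif_pos h]
      exact h.choose.flow.inv t ⟨a, h.choose_spec.2⟩ x
    · intro t a b x i
      have h : ∃ p, p ∈ c ∧ t < p.T := hex t b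
      simp only [As, ts, dif_pos h]
      exact h.choose.flow.nA t ⟨a, h.choose_spec.2⟩ x i
    · intro t0 a b
      obtain ⟨p, hp, h⟩ := hex t0 b
      exact ⟨p.T, p.A, p.θ, h, hle p hp, p.flow, fun t c1 c2 x hx => hAs p hp t c1 c2 x hx⟩
  have hpos : 0 < Ts := lt_of_lt_of_le p0.pos (hle p0 hp0)
  refine ⟨⟨Ts, As, ts, hpos, hflow, ?_⟩, ?_⟩
  · intro x hx
    have h1 := hAs p0 hp0 0 le_rfl p0.pos x hx
    have h2 := p0.init x hx
    exact ⟨h1.1.trans h2.1, h1.2.trans h2.2⟩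
  · intro p hp
    exact ⟨hle p hp, fun t a b x hx => hAs p hp t a b x hx⟩

theorem max : MaxStmt := by
  intro hLoc hExc hExd hGlu n A0 θ0 Tb hn hfrm hTb
  have hTb' : ∀ p : Fl A0 θ0, p.T ≤ Tb := fun p => hTb p.T p.A p.θ p.pos p.flow p.init
  have hne : Nonempty (Fl A0 θ0) := by
    obtain ⟨τ, hτ, A, θ, h1, h2⟩ := hLoc n hn A0 θ0 hfrm
    exact ⟨⟨τ, A, θ, hτ, FFlow_mono Set.Ico_subset_Icc_self h1, h2⟩⟩
  obtain ⟨m, hm⟩ := exists_maximal_of_chains_bounded (r := Le (A0 := A0) (θ0 := θ0))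
    (fun c hc => chain_ub hTb' hne c hc) Le_trans
  refine ⟨m.T, m.A, m.θ, m.pos, m.flow, m.init, ?_⟩
  intro K
  by_contra hcon
  push Not at hcon
  obtain ⟨A', θ', hf', hag'⟩ := hExd n m.T m.A m.θ m.pos m.flow
    (hExc n m.T m.A m.θ hn m.pos m.flow K
      (fun t h1 h2 x hx a b c d => hcon t x h1 h2 hx a b c d))
  have hTm : m.T ∈ Set.Icc 0 m.T := ⟨m.pos.le, le_rfl⟩
  have hfrm' : Frm (A' m.T) (θ' m.T) :=
    ⟨hf'.inv m.T hTm, fun a i => (hf'.flA a i).fam.sm m.T hTm,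
      fun i a => (hf'.flt i a).fam.sm m.T hTm, hf'.nA m.T hTm⟩
  obtain ⟨τ, hτ, B, η, hB, hB0⟩ := hLoc n hn _ _ hfrm'
  obtain ⟨A'', θ'', hf'', hag''⟩ := hGlu n m.T τ A' θ' B η m.pos hτ hf' hB hB0
  let q : Fl A0 θ0 :=
    { T := m.T + τ
      A := A''
      θ := θ''
      pos := by linarith [m.pos]
      flow := FFlow_mono Set.Ico_subset_Icc_self hf''
      init := by
        intro x hx
        have h1 := hag'' 0 le_rfl m.pos.le x hx
        have h2 := hag' 0 le_rfl m.pos x hx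
        have h3 := m.init x hx
        exact ⟨h1.1.trans (h2.1.trans h3.1), h1.2.trans (h2.2.trans h3.2)⟩ }
  have hmq : Le m q := by
    refine ⟨by simp only [q]; linarith, fun t a b x hx => ?_⟩
    have h1 := hag'' t a b.le x hx
    have h2 := hag' t a b x hx
    exact ⟨h1.1.trans h2.1, h1.2.trans h2.2⟩
  have := (hm q hmq).1
  simp only [q] at this
  linarith

end Pool.Agent.Helper54.RFn.MAX
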