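import Pool.Agent.Helper73.RFn.GoalsH

/-!
Packet PIN of project RFn (MP_c98eff_gt): pinching of the frame curvature tensor.
-/

set_option autoImplicit false

open Finset Pool.Agent.Helper47.RFn

namespace Pool.Agent.Helper54.RFn.PIN

open Pool.Agent.Helper73.RFn

section sums
variable {α β : Type} [Fintype α] [Fintype β]

theorem sw (F : α → α → α → α → β → β → β → β → ℝ) :
    ∑ i, ∑ j, ∑ k, ∑ l, ∑ a, ∑ b, ∑ c, ∑ d, F i j k l a b c d =
      ∑ a, ∑ b, ∑ c, ∑ d, ∑ i, ∑ j, ∑ k, ∑ l, F i j k l a b c d := by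
  have h := Finset.sum_comm (s := (univ : Finset (α × α × α × α)))
    (t := (univ : Finset (β × β × β × β)))
    (f := fun q p => F q.1 q.2.1 q.2.2.1 q.2.2.2 p.1 p.2.1 p.2.2.1 p.2.2.2)
  simpa only [Fintype.sum_prod_type] using h

theorem quad (R : α → α → α → α → ℝ) (M : α → β → ℝ) (u v w z : β → ℝ) :
    ∑ a, ∑ b, ∑ c, ∑ d, (∑ i, ∑ j, ∑ k, ∑ l, R i j k l * M i a * M j b * M k c * M l d) *
      u a * v b * w c * z d =
    ∑ i, ∑ j, ∑ k, ∑ l, R i j k l * (∑ a, M i a * u a) * (∑ b, M j b * v b) *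
      (∑ c, M k c * w c) * (∑ d, M l d * z d) := by
  have h1 : ∀ i j k l, R i j k l * (∑ a, M i a * u a) * (∑ b, M j b * v b) *
      (∑ c, M k c * w c) * (∑ d, M l d * z d) = ∑ a, ∑ b, ∑ c, ∑ d,
        R i j k l * (M i a * u a) * (M j b * v b) * (M k c * w c) * (M l d * z d) := by
    intro i j k l
    simp only [← Finset.mul_sum, ← Finset.sum_mul]
  simp only [h1]
  rw [sw]
  refine Finset.sum_congr rfl fun a _ => Finset.sum_congr rfl fun b _ =>
    Finset.sum_congr rfl fun c _ => Finset.sum_congr rfl fun d _ => ?_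
  simp only [Finset.sum_mul]
  refine Finset.sum_congr rfl fun i _ => Finset.sum_congr rfl fun j _ =>
    Finset.sum_congr rfl fun k _ => Finset.sum_congr rfl fun l _ => ?_
  ring

theorem bil (R : α → α → ℝ) (M : α → β → ℝ) (u v : β → ℝ) :
    ∑ a, ∑ b, (∑ i, ∑ j, R i j * M i a * M j b) * u a * v b =
    ∑ i, ∑ j, R i j * (∑ a, M i a * u a) * (∑ b, M j b * v b) := by
  have h1 : ∀ i j, R i j * (∑ a, M i a * u a) * (∑ b, M j b * v b) = ∑ a, ∑ b,
        R i j * (M i a * u a) * (M j b * v b) := by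
    intro i j
    simp only [← Finset.mul_sum, ← Finset.sum_mul]
  simp only [h1]
  have h2 := Finset.sum_comm (s := (univ : Finset (α × α))) (t := (univ : Finset (β × β)))
    (f := fun q p => R q.1 q.2 * (M q.1 p.1 * u p.1) * (M q.2 p.2 * v p.2))
  simp only [Fintype.sum_prod_type] at h2
  rw [h2]
  refine Finset.sum_congr rfl fun a _ => Finset.sum_congr rfl fun b _ => ?_
  simp only [Finset.sum_mul]
  refine Finset.sum_congr rfl fun i _ => Finset.sum_congr rfl fun j _ => ?_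
  ring

end sums

variable {n : ℕ}

/-- the vector `ι u` -/
def hat (ι : Ix n → Fin n → ℝ) (u : Fin n → ℝ) (a : Ix n) : ℝ := ∑ b, ι a b * u b

/-- its components in the coordinates -/
def vec (A : MF n) (x : EE n) (ι : Ix n → Fin n → ℝ) (u : Fin n → ℝ) (i : Fin (n + 1)) : ℝ :=
  ∑ a, A x a i * hat ι u a

theorem hat_dot {ν : Ix n → ℝ} {ι : Ix n → Fin n → ℝ} (h : Iso ν ι) (u v : Fin n → ℝ) :
    ∑ a, hat ι u a * hat ι v a = ∑ b, u b * v b := by
  have h1 := bil (fun i j : Ix n => if i = j then (1 : ℝ) else 0) ι u v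
  have h2 : ∀ a b, ∑ i, ∑ j, (if i = j then (1 : ℝ) else 0) * ι i a * ι j b =
      if a = b then 1 else 0 := by
    intro a b
    rw [← h.orth a b]
    refine Finset.sum_congr rfl fun i _ => ?_
    simp
  simp only [h2] at h1
  have h3 : ∑ a, hat ι u a * hat ι v a = ∑ i, ∑ j, (if i = j then (1 : ℝ) else 0) *
      (∑ a, ι i a * u a) * (∑ b, ι j b * v b) := by
    refine Finset.sum_congr rfl fun i _ => ?_
    simp [hat]
  rw [h3, ← h1]
  refine Finset.sum_congr rfl fun b _ => ?_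
  simp

theorem hat_perp {ν : Ix n → ℝ} {ι : Ix n → Fin n → ℝ} (h : Iso ν ι) (u : Fin n → ℝ) :
    ∑ a, ν a * hat ι u a = 0 := by
  unfold hat
  simp only [Finset.mul_sum]
  rw [Finset.sum_comm]
  refine Finset.sum_eq_zero fun b _ => ?_
  have := h.perp b
  have e : ∑ a, ν a * (ι a b * u b) = (∑ a, ν a * ι a b) * u b := by
    rw [Finset.sum_mul]
    exact Finset.sum_congr rfl fun a _ => by ring
  rw [e, this, zero_mul]

theorem ip_vec (hF : FhmStmt) {A θ : MF n} (hf : Frm A θ) {x : EE n} (hx : ‖x‖ = 1)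
    {ν : Ix n → ℝ} {ι : Ix n → Fin n → ℝ} (h : Iso ν ι) (u v : Fin n → ℝ) :
    ip (cyl (gOf θ)) x (vec A x ι u) (vec A x ι v) = ∑ b, u b * v b := by
  obtain ⟨-, -, -, -, -, -, -, -, -, -, -, -, -, hA, -⟩ := (hF n).1 A θ hf
  have h1 := bil (fun i j => cyl (gOf θ) x i j) (fun i a => A x a i) (hat ι u) (hat ι v)
  have h2 : ∀ a b, ∑ i, ∑ j, cyl (gOf θ) x i j * A x a i * A x b j = if a = b then 1 else 0 := by
    intro a b
    rw [← hA x a b]
    unfold ip cyl
    refine Finset.sum_congr rfl fun i _ => Finset.sum_congr rfl fun j _ => ?_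
    rw [hx]
    simp
  simp only [h2] at h1
  have h3 : ip (cyl (gOf θ)) x (vec A x ι u) (vec A x ι v) = ∑ i, ∑ j, cyl (gOf θ) x i j *
      (∑ a, A x a i * hat ι u a) * (∑ b, A x b j * hat ι v b) := rfl
  rw [h3, ← h1, ← hat_dot h u v]
  refine Finset.sum_congr rfl fun b _ => ?_
  simp

theorem tan_vec {A : MF n} {x : EE n} (hx : ‖x‖ = 1) {ι : Ix n → Fin n → ℝ}
    (h : Iso (fun a => nfc A a x) ι) (u : Fin n → ℝ) : Tan x (vec A x ι u) := by
  unfold Tan vec
  have h1 := hat_perp h u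
  have h2 : ∀ a, nfc A a x = ∑ i, A x a i * x i := by
    intro a
    unfold nfc nn
    rw [hx]
    simp
  simp only [h2] at h1
  rw [← h1]
  simp only [Finset.sum_mul]
  rw [Finset.sum_comm]
  refine Finset.sum_congr rfl fun a _ => Finset.sum_congr rfl fun i _ => ?_
  ring

theorem curv_vec (hR : RmkStmt) {A θ : MF n} (hf : Frm A θ)
    (hK : ∀ a b c d x, x ≠ 0 → Kf A θ a b c d x = -Kf A θ a b d c x) {x : EE n} (hx : ‖x‖ = 1)
    (ι : Ix n → Fin n → ℝ) (u v : Fin n → ℝ) :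
    curv (cyl (gOf θ)) x (vec A x ι u) (vec A x ι v) =
      K2 (pull ι fun a b c d => Rf A θ a b c d x) u v := by
  have hx0 : x ≠ 0 := by
    intro h
    rw [h, norm_zero] at hx
    exact zero_ne_one hx
  have h1 := quad (fun i j k l => Rm (cyl (gOf θ)) i j k l x) (fun i a => A x a i)
    (hat ι u) (hat ι v) (hat ι v) (hat ι u)
  have h2 : ∀ a b c d, ∑ i, ∑ j, ∑ k, ∑ l, Rm (cyl (gOf θ)) i j k l x * A x a i * A x b j *
      A x c k * A x d l = Kf A θ a b c d x := by
    intro a b c d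
    rw [hR n A θ hf x hx0 a b c d, hx, one_pow, one_mul]
  simp only [h2] at h1
  have h3 : curv (cyl (gOf θ)) x (vec A x ι u) (vec A x ι v) = ∑ a, ∑ b, ∑ c, ∑ d,
      Kf A θ a b c d x * hat ι u a * hat ι v b * hat ι v c * hat ι u d := h1.symm
  have h4 := quad (fun a b c d => Rf A θ a b c d x) ι u v u v
  have h5 : K2 (pull ι fun a b c d => Rf A θ a b c d x) u v = ∑ a, ∑ b, ∑ c, ∑ d,
      Rf A θ a b c d x * hat ι u a * hat ι v b * hat ι u c * hat ι v d := h4
  rw [h3, h5]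
  refine Finset.sum_congr rfl fun a _ => Finset.sum_congr rfl fun b _ => ?_
  rw [Finset.sum_comm]
  refine Finset.sum_congr rfl fun c _ => Finset.sum_congr rfl fun d _ => ?_
  rw [hK a b d c x hx0]
  unfold Rf
  ring

theorem sec_vec (hR : RmkStmt) (hF : FhmStmt) {A θ : MF n} (hf : Frm A θ)
    (hK : ∀ a b c d x, x ≠ 0 → Kf A θ a b c d x = -Kf A θ a b d c x) {x : EE n} (hx : ‖x‖ = 1)
    {ν : Ix n → ℝ} {ι : Ix n → Fin n → ℝ} (h : Iso ν ι) (u v : Fin n → ℝ)
    (hu : nrm u = 1) (hv : nrm v = 1) (huv : ∑ i, u i * v i = 0) :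
    sec (cyl (gOf θ)) x (vec A x ι u) (vec A x ι v) =
      K2 (pull ι fun a b c d => Rf A θ a b c d x) u v := by
  have e : ∀ w : Fin n → ℝ, ∑ b, w b * w b = nrm w := by
    intro w
    unfold nrm
    exact Finset.sum_congr rfl fun b _ => by ring
  unfold sec ar
  rw [curv_vec hR hf hK hx, ip_vec hF hf hx h, ip_vec hF hf hx h, ip_vec hF hf hx h, e, e, hu, hv,
    huv]
  norm_num

theorem li_vec (hF : FhmStmt) {A θ : MF n} (hf : Frm A θ) {x : EE n} (hx : ‖x‖ = 1)
    {ν : Ix n → ℝ} {ι : Ix n → Fin n → ℝ} (h : Iso ν ι) (u v : Fin n → ℝ)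
    (hu : nrm u = 1) (hv : nrm v = 1) (huv : ∑ i, u i * v i = 0) :
    LinearIndependent ℝ ![vec A x ι u, vec A x ι v] := by
  have e : ∀ w : Fin n → ℝ, ∑ b, w b * w b = nrm w := by
    intro w
    unfold nrm
    exact Finset.sum_congr rfl fun b _ => by ring
  rw [LinearIndependent.pair_iff]
  intro s t hst
  have key : ∀ w : Fin n → ℝ, s * (∑ b, w b * u b) + t * (∑ b, w b * v b) = 0 := by
    intro w
    rw [← ip_vec hF hf hx h w u, ← ip_vec hF hf hx h w v]
    have h1 : ∀ i, s * vec A x ι u i + t * vec A x ι v i = 0 := fun i => by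
      have := congrFun hst i
      simpa using this
    unfold ip
    simp only [Finset.mul_sum]
    rw [← Finset.sum_add_distrib]
    refine Finset.sum_eq_zero fun i _ => ?_
    rw [← Finset.sum_add_distrib]
    refine Finset.sum_eq_zero fun j _ => ?_
    have := h1 j
    have h2 : s * (cyl (gOf θ) x i j * vec A x ι w i * vec A x ι u j) +
        t * (cyl (gOf θ) x i j * vec A x ι w i * vec A x ι v j) =
        cyl (gOf θ) x i j * vec A x ι w i * (s * vec A x ι u j + t * vec A x ι v j) := by ring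
    rw [h2, this, mul_zero]
  have huv' : ∑ i, v i * u i = 0 := by
    rw [← huv]
    exact Finset.sum_congr rfl fun i _ => mul_comm _ _
  have k1 := key u
  have k2 := key v
  rw [e, hu, huv] at k1
  rw [e, hv, huv'] at k2
  constructor
  · linarith
  · linarith

theorem pin (hR : RmkStmt) (hF : FhmStmt) : PinStmt := by
  intro n A θ hf hK δ x hx hp ι hι u v u' v' hu hv huv hu' hv' huv'
  have h := hp (vec A x ι u) (vec A x ι v) (vec A x ι u') (vec A x ι v')
    (tan_vec hx hι u) (tan_vec hx hι v) (tan_vec hx hι u') (tan_vec hx hι v')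
    (li_vec hF hf hx hι u v hu hv huv) (li_vec hF hf hx hι u' v' hu' hv' huv')
  rw [sec_vec hR hF hf hK hx hι u v hu hv huv, sec_vec hR hF hf hK hx hι u' v' hu' hv' huv'] at h
  exact ⟨h.1, h.2.le⟩

end Pool.Agent.Helper54.RFn.PIN
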